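import Mathlib
import Pool.Agent.helper73.SHL.Spec

/-!
# Project brz (MP_a2a22c_al): `Br(ℤ) = 0` and the embedding theorem

A central division algebra `D` over `ℚ` of dimension `d²`, `d ≥ 2`, with a representation of dimension `d` over every
`ℚ_q`, has no self-dual order. (The Brauer group of `ℤ` is trivial; a proof by Poisson summation and the poles of
`ζ(s) ζ(s-1) ⋯ ζ(s-d+1)`.) With the library PR and the rows of SHL: every finitely generated residually finite group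
with the finite quotients of `SL(n, ℤ)`, `n ≥ 3`, embeds in `SL(n, ℤ)` as a dense subgroup (Spitler's theorem).

Module `brz:XX` proves `theorem XX (hYY : YY_stmt) ... : XX_stmt` (hypotheses in its row) in
`Pool/Agent/<seat>/BRZ/XX.lean`, `import Pool.Agent.helper73.BRZ.Spec`, namespace `Pool.Agent.BRZ`, auxiliary lemmas
with the prefix `XX_`.

PLAN. `S : SO d D` is a self-dual order `O = S.ord` of `D`, `N = d²`. `E = EE N` is euclidean space, `A = ℝ ⊗ D` the real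
algebra, `S.ev : A ≃ E` the coordinates in the basis of `O`. For `z ∈ D`, `g ∈ E`: `S.act z g` is the product `z g`, `S.dl g` is
the absolute value of the determinant of right multiplication by `g`, the covolume of the lattice `O g`. `S.LY`: the left
`O`-lattices `Y ⊆ D` containing `O`; `S.ix Y = [Y : O]`; the lattice `Y g` has covolume `ν = dl g / ix Y`.
For `f ≥ 0` smooth with compact support in `{dl ≠ 0}`: `∑_{z ∈ Y, z ≠ 0} f (z g) = ν⁻¹ ∫ f + O(ν)` uniformly (DSO: Poisson summation, no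
short vectors in the dual lattice of `Y g`). Unfolding (QSC) turns the average of this over a shell `1 ≤ T ν ≤ 2` into
`∑_Y Φ (T / ix Y) = C T + O(1)` (DSA), `Φ = S.PhiF f`. The number of `Y` with `ix Y = w ^ d` is `cc d w` (CTY), so
`∑_w cc d w Ψ (U / w) = C U ^ d + O(1)`, `Ψ r = Φ (r ^ d)`, a contradiction (MEL).
-/

set_option autoImplicit false

namespace Pool.Agent.BRZ

open Matrix Module Pool.Agent.PR Pool.Agent.SHL TensorProduct MeasureTheory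
open scoped ENNReal ContDiff RealInnerProductSpace FourierTransform SchwartzMap

/-- a self-dual order of `D` (with a basis): products of basis elements and `1` are integral combinations, and the Gram matrix `T` of
the reduced trace (`d T_ij = Tr(b_i b_j)`) is integral of determinant `± 1` -/
structure SO (d : ℕ) (D : Type) [DivisionRing D] [Algebra ℚ D] where
  b : Basis (Fin (d * d)) ℚ D
  mul : ∀ i j, ∃ c : Fin (d * d) → ℤ, b i * b j = ∑ l, c l • b l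
  one : ∃ c : Fin (d * d) → ℤ, (1 : D) = ∑ l, c l • b l
  T : Matrix (Fin (d * d)) (Fin (d * d)) ℤ
  tr : ∀ i j, tra (b i * b j) = d * T i j
  det : T.det ^ 2 = 1

/-- **ORE** (complement to ORD: the unit element is in the order). As ORD (use its proof: `1 ∈ O_D`). -/
def ORE_stmt : Prop := ∀ (k d : ℕ) (hk : 0 < k) (D : Type) [DivisionRing D] [Algebra ℚ D] [FiniteDimensional ℚ D]
  (τ : Matrix (Fin k) (Fin k) D →ₗ[ℚ] ℚ) (O : Subring (Matrix (Fin k) (Fin k) D)), finrank ℚ D = d * d →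
  0 < d → (∀ x y : Matrix (Fin k) (Fin k) D, τ (x * y) = τ (y * x)) →
  (∃ M : Submodule ℤ (Matrix (Fin k) (Fin k) D), M.FG ∧ ∀ x, x ∈ M ↔ x ∈ O) →
  Submodule.span ℚ (O : Set (Matrix (Fin k) (Fin k) D)) = ⊤ →
  (∀ x : Matrix (Fin k) (Fin k) D, (∀ y ∈ O, ∃ z : ℤ, τ (x * y) = z) → x ∈ O) →
  (∀ x : D, (d : ℚ) * τ (Matrix.single ⟨0, hk⟩ ⟨0, hk⟩ x) = tra x) →
  (∀ x : D, IsIntegral ℤ x → ∃ z : ℤ, τ (Matrix.single ⟨0, hk⟩ ⟨0, hk⟩ x) = z) →
  Nonempty (SO d D)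

section defs

variable {d : ℕ} {D : Type} [DivisionRing D] [Algebra ℚ D]

/-- the order, as an additive group -/
def SO.ord (S : SO d D) : AddSubgroup D := AddSubgroup.closure (Set.range S.b)

/-- euclidean space -/
abbrev EE (N : ℕ) : Type := EuclideanSpace ℝ (Fin N)

/-- an integral vector -/
noncomputable def zv {N : ℕ} (n : Fin N → ℤ) : EE N := WithLp.toLp 2 (fun i => (n i : ℝ))

/-- coordinates on the real algebra -/
noncomputable def SO.ev (S : SO d D) : (ℝ ⊗[ℚ] D) ≃ₗ[ℝ] EE (d * d) :=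
  (S.b.baseChange ℝ).equivFun.trans (WithLp.linearEquiv 2 ℝ (Fin (d * d) → ℝ)).symm

/-- the product `z g` -/
noncomputable def SO.act (S : SO d D) (z : D) (g : EE (d * d)) : EE (d * d) :=
  S.ev (((1 : ℝ) ⊗ₜ[ℚ] z) * S.ev.symm g)

/-- absolute value of the determinant of right multiplication by `g` -/
noncomputable def SO.dl (S : SO d D) (g : EE (d * d)) : ℝ :=
  |LinearMap.det (LinearMap.mulRight ℝ (S.ev.symm g))|

/-- the left `O`-lattices which contain `O` -/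
def SO.LY (S : SO d D) : Type :=
  {Y : AddSubgroup D // S.ord ≤ Y ∧ (∀ a ∈ S.ord, ∀ y ∈ Y, a * y ∈ Y) ∧ S.ord.relIndex Y ≠ 0}

/-- the index `[Y : O]` -/
noncomputable def SO.ix (S : SO d D) (Y : S.LY) : ℕ := S.ord.relIndex Y.1

/-- the covolume of `Y g` -/
noncomputable def SO.nu (S : SO d D) (g : EE (d * d)) (Y : S.LY) : ℝ := S.dl g / S.ix Y

/-- the function `Φ` of the main argument -/
noncomputable def SO.PhiF (S : SO d D) (f : EE (d * d) → ℝ) (r : ℝ) : ℝ :=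
  ∫ g, if 1 ≤ r * S.dl g ∧ r * S.dl g ≤ 2 then f g / S.dl g else 0

/-- test functions: smooth, nonnegative, compact support in the set of invertible elements -/
def SO.Test (S : SO d D) (f : EE (d * d) → ℝ) : Prop :=
  ContDiff ℝ ∞ f ∧ HasCompactSupport f ∧ (∀ g, 0 ≤ f g) ∧ (∀ g ∈ tsupport f, S.dl g ≠ 0) ∧ 0 < ∫ g, f g

end defs

/-- `cc d w` = the number of subgroups of `ℤ ^ d` of index `w` (see CNT) -/
def cc : ℕ → ℕ → ℕ
  | 0, w => if w = 1 then 1 else 0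
  | d + 1, w => ∑ x ∈ w.divisorsAntidiagonal, cc d x.1 * x.2 ^ d

/-! ### Part 1: counting lattices -/

/-- **CNT**. The number of subgroups of order `w` of `(ℤ/m)^d`, `w ∣ m`, is `cc d w`. Induction on `d`. Let `W ≤ (ℤ/m)^(d+1)`, `|W| = w`,
`W' = {v : (v, 0) ∈ W}`, `a = |W'|`, `b` = the order of the projection of `W` to the last coordinate, which is the group generated by `m / b`; `a b = w`.
`W` is determined by `W'`, `b` and the class modulo `W'` of `v` with `(v, m / b) ∈ W`; `v` can be any vector with `b v ∈ W'`. There are `a b^d` such `v`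
(for `u ∈ W'`, `a u = 0`, so `u = (m / a) u'` and `b v = u` has the solution `v = (m / (a b)) u'`, and `b^d` solutions), so `b^d` classes. -/
def CNT_stmt : Prop := ∀ (d w m : ℕ), 0 < m → w ∣ m →
  Nat.card {W : AddSubgroup (Fin d → ZMod m) // Nat.card W = w} = cc d w

/-- **MOR** (left ideals of a matrix ring, additive subgroups closed under left multiplication): `J ↦` the set of the rows of its elements,
`W ↦` the matrices whose rows are in `W`. -/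
def MOR_stmt : Prop := ∀ (d m : ℕ), 0 < d → 0 < m →
  ∃ e : {J : AddSubgroup (Matrix (Fin d) (Fin d) (ZMod m)) // ∀ a : Matrix (Fin d) (Fin d) (ZMod m), ∀ x ∈ J, a * x ∈ J} ≃
      AddSubgroup (Fin d → ZMod m),
    ∀ J, Nat.card J.1 = (Nat.card (e J)) ^ d

/-- **LQ** (from `TRC_stmt`; the order at `q`). `M` = the `ℤ_q`-submodule of `ℚ_q^d` generated by the vectors `φ(b_i) e_j`: stable under
`φ(O)`, finitely generated, contains the `e_j` (`1 ∈ O`), so free of rank `d`; let `g` be the matrix of a basis, `θ x = g⁻¹ φ(x) g`. The matrices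
`X_i = θ(b_i)` are integral, and `trace (X_i X_j) = T_ij` (TRC). Let `C` be the matrix of the coordinates of the `X_i` in the matrix units;
`T = C P Cᵀ` with a permutation matrix `P`, so `det C` is a unit and the `X_i` are a `ℤ_q`-basis of the integral matrices. -/
def LQ_stmt : Prop := ∀ (d : ℕ) (D : Type) [DivisionRing D] [Algebra ℚ D] [FiniteDimensional ℚ D], 0 < d →
  Algebra.IsCentral ℚ D → ∀ (S : SO d D) (q : ℕ) [Fact q.Prime], Nonempty (D →+* Matrix (Fin d) (Fin d) ℚ_[q]) →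
  ∃ (θ : D →+* Matrix (Fin d) (Fin d) ℚ_[q]) (X : Fin (d * d) → Matrix (Fin d) (Fin d) ℤ_[q]),
    (∀ i, θ (S.b i) = (X i).map (PadicInt.Coe.ringHom (p := q))) ∧
    ∀ M : Matrix (Fin d) (Fin d) ℤ_[q], ∃! c : Fin (d * d) → ℤ_[q], M = ∑ i, c i • X i

/-- **LM** (from LQ; the order modulo `m`). For `m = q ^ j`: `θ` modulo `q ^ j` maps `O` onto `M_d(ℤ/q^j)` (`PadicInt.toZModPow`), the kernel is `q ^ j O`
(the `X_i` are a `ℤ_q`-basis). In general by the Chinese remainder theorem (`Nat.recOnPosPrimePosCoprime`, `ZMod.chineseRemainder`). -/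
def LM_stmt : Prop := ∀ (d : ℕ) (D : Type) [DivisionRing D] [Algebra ℚ D] [FiniteDimensional ℚ D], 0 < d →
  Algebra.IsCentral ℚ D → ∀ (S : SO d D),
  (∀ (q : ℕ) [Fact q.Prime], Nonempty (D →+* Matrix (Fin d) (Fin d) ℚ_[q])) → ∀ m : ℕ, 0 < m →
  ∃ π : S.ord →+ Matrix (Fin d) (Fin d) (ZMod m), Function.Surjective π ∧
    (∀ x y z : S.ord, (z : D) = x * y → π z = π x * π y) ∧
    ∀ x : S.ord, π x = 0 ↔ ∃ y : S.ord, x = m • y

/-- **CTY** (from CNT, MOR, LM). If `ix Y = m` then `m Y ⊆ O`. `Y ↦ π (m Y)` is a bijection between the `Y ∈ LY` with `m Y ⊆ O` and the left ideals `J` of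
`M_d(ℤ/m)`, `|J| = [m Y : m O] = ix Y`. With MOR: `ix Y = m` exactly if `|W| ^ d = m`; so `m = w ^ d`, `w = |W|`, `w ∣ m`, and by CNT there are
`cc d w` such `Y`. Sum over `m`. (`cc d 0 = 0`.) -/
def CTY_stmt : Prop := ∀ (d : ℕ) (D : Type) [DivisionRing D] [Algebra ℚ D] [FiniteDimensional ℚ D], 0 < d →
  Algebra.IsCentral ℚ D → ∀ (S : SO d D),
  (∀ (q : ℕ) [Fact q.Prime], Nonempty (D →+* Matrix (Fin d) (Fin d) ℚ_[q])) →
  ∀ F : ℕ → ℝ≥0∞, ∑' Y : S.LY, F (S.ix Y) = ∑' w : ℕ, (cc d w : ℝ≥0∞) * F (w ^ d)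

/-! ### Part 2: complex analysis -/

/-- **LSC**. `cc (d+1)` is the Dirichlet convolution of `cc d` and `w ↦ w ^ d`; `LSeries_convolution`, `LSeriesHasSum`, `LSeries` of
`w ^ d` at `s` is `ζ(s - d)`. -/
def LSC_stmt : Prop := ∀ (d : ℕ) (s : ℂ), (d : ℝ) < s.re → LSeriesSummable (fun w => (cc d w : ℂ)) s ∧
  LSeries (fun w => (cc d w : ℂ)) s = ∏ i ∈ Finset.range d, riemannZeta (s - i)

/-- conditions on the weight function `Ψ` -/
def Wt (Ψ : ℝ → ℝ) : Prop := Measurable Ψ ∧ (∀ r, 0 ≤ Ψ r) ∧ (∃ B, ∀ r, Ψ r ≤ B) ∧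
  (∃ a b : ℝ, 0 < a ∧ ∀ r, Ψ r ≠ 0 → a ≤ r ∧ r ≤ b) ∧ 0 < ∫ r, Ψ r

/-- **MEA** (Mellin transform). `S(U) = ∑_w cc d w Ψ (U / w)`: for each `U` a finite sum, `S(U) = 0` for `U < a`. For `Re s > d`:
`∫_0^∞ S(U) U^(-s-1) dU = ∑_w cc d w w^(-s) ∫_0^∞ Ψ(r) r^(-s-1) dr` (absolute convergence by LSC, `LSeriesSummable`). With `S(U) = C U^d + R(U)`, `|R(U)| ≤ K`
for `U ≥ 1`: the left side is `∫_0^1 S(U) U^(-s-1) dU + C / (s - d) + ∫_1^∞ R(U) U^(-s-1) dU`, where the two integrals are holomorphic for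
`Re s > 0` (`hasDerivAt_integral_of_dominated_loc_of_deriv_le`, or the lemmas on `mellin`: `mellin_differentiableAt_of_isBigO_rpow`). `H` = the right side. -/
def MEA_stmt : Prop := ∀ (d : ℕ), 1 ≤ d → ∀ (Ψ : ℝ → ℝ), Wt Ψ → ∀ C K : ℝ,
  (∀ s : ℂ, (d : ℝ) < s.re → LSeriesSummable (fun w => (cc d w : ℂ)) s) →
  (∀ U : ℝ, 1 ≤ U → |(∑' w : ℕ, (cc d w : ℝ) * Ψ (U / w)) - C * U ^ d| ≤ K) →
  ∃ H : ℂ → ℂ, DifferentiableOn ℂ H {s | 0 < s.re ∧ s ≠ d} ∧ ∀ s : ℂ, (d : ℝ) < s.re →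
    H s = LSeries (fun w => (cc d w : ℂ)) s * ∫ r in Set.Ioi (0 : ℝ), (Ψ r : ℂ) * (r : ℂ) ^ (-s - 1)

/-- **MEL** (from LSC, MEA). `Ψ^(s) = ∫ Ψ(r) r^(-s-1) dr` is entire. `G(s) = Ψ^(s) ∏_{i<d} ζ(s - i)` and `H` are holomorphic on the connected open set
`{Re s > 0} \ {1, ..., d}` and agree for `Re s > d`, so everywhere on it (`AnalyticOnNhd.eqOn_of_preconnected_of_eventuallyEq`; the complement
of a finite set in a convex open set is connected, e.g. `IsOpen.isConnected_compl_singleton..`, `Set.Countable.isPathConnected_compl_of_one_lt_rank` for ball-like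
sets, or join points by hand). `H` is continuous at `d - 1 ≥ 1`, so bounded near `d - 1`. Let `s → d - 1`, `s` real, `s > d - 1`: the factor
`ζ(s - (d - 2))` tends to infinity (`riemannZeta_residue_one`), the factor `ζ(s - (d-1)) → ζ(0) = -1/2`, the others tend to `ζ(j) ≠ 0`, `2 ≤ j ≤ d - 1`, and
`Ψ^(d-1) > 0`. Contradiction. -/
def MEL_stmt : Prop := ∀ (d : ℕ), 2 ≤ d → ∀ (Ψ : ℝ → ℝ), Wt Ψ → ∀ C K : ℝ,
  ¬ ∀ U : ℝ, 1 ≤ U → |(∑' w : ℕ, (cc d w : ℝ) * Ψ (U / w)) - C * U ^ d| ≤ K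

/-! ### Part 3: Poisson summation -/

/-- **POA** (Poisson summation for `ℤ ^ N`). As the proof in `Mathlib/Analysis/Fourier/PoissonSummation.lean`, with `UnitAddTorus` and
`hasSum_mFourier_series_apply_of_summable` (`AddCircleMulti.lean`): the periodisation `∑_n f (x + n)` is a continuous function on the torus with the
Fourier coefficients `𝓕 f (n)`, which are summable. (`∑_n (1 + |n|)^(-k)` converges for `k > N`: e.g. `summable_norm_sub_zpow`.., or compare with the product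
of `∑ (1 + n_i²)^(-1)`: `∏ (1 + n_i²) ≤ (1 + |n|²)^N`.) -/
def POA_stmt : Prop := ∀ (N : ℕ) (f : 𝓢(EE N, ℂ)),
  Summable (fun n : Fin N → ℤ => f (zv n)) ∧ Summable (fun n : Fin N → ℤ => 𝓕 (f : EE N → ℂ) (zv n)) ∧
  ∑' n : Fin N → ℤ, f (zv n) = ∑' n : Fin N → ℤ, 𝓕 (f : EE N → ℂ) (zv n)

/-- **POI** (from POA; general lattices). Apply POA to `f ∘ A` (`SchwartzMap.compCLMOfContinuousLinearEquiv`), whose Fourier transform at `ξ` is
`|det A|⁻¹ 𝓕 f ((A⁻¹)^* ξ)` (change of variables). -/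
def POI_stmt : Prop := ∀ (N : ℕ) (f : 𝓢(EE N, ℂ)) (A : EE N ≃ₗ[ℝ] EE N),
  Summable (fun n : Fin N → ℤ => f (A (zv n))) ∧
  Summable (fun n : Fin N → ℤ => 𝓕 (f : EE N → ℂ) (LinearMap.adjoint (A.symm : EE N →ₗ[ℝ] EE N) (zv n))) ∧
  ∑' n : Fin N → ℤ, f (A (zv n)) = ((|LinearMap.det (A : EE N →ₗ[ℝ] EE N)|⁻¹ : ℝ) : ℂ) *
    ∑' n : Fin N → ℤ, 𝓕 (f : EE N → ℂ) (LinearMap.adjoint (A.symm : EE N →ₗ[ℝ] EE N) (zv n))

/-- **LSB** (lattices without short vectors). The balls of radius `r / 2` with centres `B n` are disjoint, so at most `(1 + 2 R / r)^N` points have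
`‖B n‖ ≤ R`; sum over the shells `2^k r ≤ ‖B n‖ < 2^(k+1) r`: `∑_k (1 + 2^(k+2))^N (2^k r)^(-2N) ≤ C r^(-2N)`. -/
def LSB_stmt : Prop := ∀ (N : ℕ), 1 ≤ N → ∃ C : ℝ, ∀ (B : EE N →ₗ[ℝ] EE N) (r : ℝ), 0 < r →
  (∀ n : Fin N → ℤ, n ≠ 0 → r ≤ ‖B (zv n)‖) →
  Summable (fun n : {n : Fin N → ℤ // n ≠ 0} => (‖B (zv n.1)‖ ^ (2 * N))⁻¹) ∧
  ∑' n : {n : Fin N → ℤ // n ≠ 0}, (‖B (zv n.1)‖ ^ (2 * N))⁻¹ ≤ C * (r ^ (2 * N))⁻¹

/-- **PSB** (from POI, LSB). `f` is a Schwartz function, `|𝓕 f ξ| ≤ C' |ξ|^(-2N)`, `𝓕 f 0 = ∫ f`, `f 0 = 0`. -/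
def PSB_stmt : Prop := ∀ (N : ℕ), 1 ≤ N → ∀ f : EE N → ℝ, ContDiff ℝ ∞ f → HasCompactSupport f → f 0 = 0 →
  ∃ C : ℝ, ∀ (A : EE N ≃ₗ[ℝ] EE N) (r : ℝ), 0 < r →
    (∀ n : Fin N → ℤ, n ≠ 0 → r ≤ ‖LinearMap.adjoint (A.symm : EE N →ₗ[ℝ] EE N) (zv n)‖) →
    |(∑' n : Fin N → ℤ, f (A (zv n))) - |LinearMap.det (A : EE N →ₗ[ℝ] EE N)|⁻¹ * ∫ x, f x| ≤
      C * |LinearMap.det (A : EE N →ₗ[ℝ] EE N)|⁻¹ * (r ^ (2 * N))⁻¹

/-! ### Part 4: the real algebra -/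

/-- **NOR** (left and right multiplication have the same determinant). `K = ℚ(x)`: `D` is a left and a right `K`-space of the same
dimension `r = dim D / [K : ℚ]`, and both determinants are `N_{K/ℚ}(x) ^ r`. Also multiplicativity, and `nor x ≠ 0` for `x ≠ 0`. -/
def NOR_stmt : Prop := ∀ (D : Type) [DivisionRing D] [Algebra ℚ D] [FiniteDimensional ℚ D] (x : D),
  LinearMap.det (LinearMap.mulRight ℚ x) = nor x ∧ (∀ y : D, nor (x * y) = nor x * nor y) ∧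
  (x ≠ 0 → nor x ≠ 0)

/-- **RAL** (from NOR; elementary facts). (1), (2): `mulRight (a b) = mulRight b ∘ mulRight a`, base change of determinants
(`LinearMap.det_baseChange`), NOR. (3): polynomial in the coordinates. (4): `dl` is the absolute value of a homogeneous polynomial of degree `d²`:
compactness of the sphere. (5) `dl g ≠ 0` implies that `g` is invertible. (6): `S.act z` is a linear map with determinant of absolute value `|nor z|`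
(base change of left multiplication). -/
def RAL_stmt : Prop := ∀ (d : ℕ) (D : Type) [DivisionRing D] [Algebra ℚ D] [FiniteDimensional ℚ D], 0 < d →
  ∀ (S : SO d D),
  (∀ a b : ℝ ⊗[ℚ] D, S.dl (S.ev (a * b)) = S.dl (S.ev a) * S.dl (S.ev b)) ∧
  (∀ (z : D) (g : EE (d * d)), S.dl (S.act z g) = |(nor z : ℝ)| * S.dl g) ∧
  Continuous S.dl ∧
  (∃ C : ℝ, 0 < C ∧ ∀ g, S.dl g ≤ C * ‖g‖ ^ (d * d)) ∧
  (∀ g, S.dl g ≠ 0 → ∃ h : ℝ ⊗[ℚ] D, S.ev.symm g * h = 1 ∧ h * S.ev.symm g = 1) ∧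
  (∀ z : D, ∃ L : EE (d * d) →ₗ[ℝ] EE (d * d), (∀ g, L g = S.act z g) ∧ |LinearMap.det L| = |(nor z : ℝ)|) ∧
  (∀ (z w : D) (g : EE (d * d)), S.act z (S.act w g) = S.act (z * w) g) ∧
  (∀ (c : ℝ) (g : EE (d * d)), S.dl (c • g) = |c| ^ (d * d) * S.dl g) ∧
  (∀ (z : D) (c : ℝ) (g : EE (d * d)), S.act z (c • g) = c • S.act z g) ∧
  S.dl 0 = 0 ∧ S.dl (S.ev 1) = 1

/-- **BAS** (from RAL; a parametrisation of the lattice `Y g`). `Y / O` is finite, so `Y` is a free abelian group of rank `N = d²` with a basis `y_i`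
which is a `ℚ`-basis of `D`; the basis `b` of `O` is expressed in it by an integer matrix of determinant `± ix Y`. `A` maps the standard basis to the
vectors `y_i g`. `A` is the composition of right multiplication by `g` with the linear map which maps `zv e_i` to the coordinates of `y_i`, whose
determinant has absolute value `1 / ix Y`. -/
def BAS_stmt : Prop := ∀ (d : ℕ) (D : Type) [DivisionRing D] [Algebra ℚ D] [FiniteDimensional ℚ D], 0 < d →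
  ∀ (S : SO d D) (Y : S.LY) (g : EE (d * d)), S.dl g ≠ 0 →
  ∃ (A : EE (d * d) ≃ₗ[ℝ] EE (d * d)) (e : (Fin (d * d) → ℤ) ≃ Y.1),
    |LinearMap.det (A : EE (d * d) →ₗ[ℝ] EE (d * d))| = S.nu g Y ∧ e 0 = 0 ∧
    ∀ n, S.act (e n) g = A (zv n)

/-- **IDX** (index and norm; elementary). Let `Y ∈ LY`, `z ≠ 0`. (1) If `z ∈ Y` then `Y' = {x : x z ∈ Y} = Y z⁻¹` is in `LY` (it contains `O` because
`O z ⊆ Y`), and `ix Y' = ix Y * |nor z|` (as real numbers: `[Y : O z] = [Y : O] [O : O z]` in the generalised sense, right multiplication by `z` has determinant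
`nor z`, NOR; choose `m` with `m z ∈ O` if a formula for indices of images of integer matrices is used: `[O : O m z] = |nor (m z)|`).
(2) If `Y z ⊆ O` then `ix Y ≤ |nor z|`. (3) `LY` is countable. -/
def IDX_stmt : Prop := ∀ (d : ℕ) (D : Type) [DivisionRing D] [Algebra ℚ D] [FiniteDimensional ℚ D], 0 < d →
  ∀ (S : SO d D), (∀ (Y : S.LY) (z : D), z ∈ Y.1 → z ≠ 0 → ∃ Y' : S.LY, (∀ x, x ∈ Y'.1 ↔ x * z ∈ Y.1) ∧
      (S.ix Y' : ℝ) = S.ix Y * |(nor z : ℝ)|) ∧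
  (∀ (Y : S.LY) (z : D), z ≠ 0 → (∀ y ∈ Y.1, y * z ∈ S.ord) → (S.ix Y : ℝ) ≤ |(nor z : ℝ)|) ∧
  Countable S.LY

/-- **DUA** (from RAL, IDX; the dual lattice of `Y g` has no short vectors). The trace form `β(u, v) = d⁻¹ Tr(u v)` on `A = ℝ ⊗ D` (`Tr` = the trace of left
multiplication) has the integral Gram matrix `T` in the basis `b`; `T` is symmetric with `T⁻¹` integral. Let `u = T⁻¹ z'`, that is, `β(x, ev⁻¹ u) = ⟪ev x, z'⟫` for all
`x`. Then `β(z g, u) = β(z, g u) ∈ ℤ` for all `z ∈ Y`. As `O ⊆ Y`: the coordinates of `v = g u` are integers (`T` unimodular), `v = 1 ⊗ y'`,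
`y' ∈ O`, `y' ≠ 0` (`g` is invertible), and `d⁻¹ Tr(y y') ∈ ℤ` for all `y ∈ Y`; for `y ∈ Y`, `a ∈ O`: `d⁻¹ Tr(a y y') ∈ ℤ`, so `y y' ∈ O` (`T` unimodular).
IDX (2): `ix Y ≤ |nor y'| = dl (ev v) = dl g * dl (u) ≤ dl g * C ‖u‖^N ≤ dl g C' ‖z'‖^N`. -/
def DUA_stmt : Prop := ∀ (d : ℕ) (D : Type) [DivisionRing D] [Algebra ℚ D] [FiniteDimensional ℚ D], 0 < d →
  ∀ (S : SO d D), ∃ c : ℝ, 0 < c ∧ ∀ (Y : S.LY) (g z' : EE (d * d)), S.dl g ≠ 0 → z' ≠ 0 →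
    (∀ z ∈ Y.1, ∃ k : ℤ, ⟪S.act z g, z'⟫ = (k : ℝ)) → c ≤ S.nu g Y * ‖z'‖ ^ (d * d)

/-- **DSO** (from PSB, BAS, DUA). BAS: the sum over `Y` is the sum over `ℤ^N` of `f (A n)` minus the term `n = 0`, which is `0`. For `n ≠ 0`,
`z' = (A⁻¹)^* n` is not zero and `⟪A n', z'⟫ = ⟪n', n⟫ ∈ ℤ`, so by DUA `‖z'‖ ≥ r = (c / ν)^(1/N)`, `r^(-2N) = (ν / c)²`; PSB. -/
def DSO_stmt : Prop := ∀ (d : ℕ) (D : Type) [DivisionRing D] [Algebra ℚ D] [FiniteDimensional ℚ D], 0 < d →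
  ∀ (S : SO d D) (f : EE (d * d) → ℝ), S.Test f → ∃ C : ℝ, ∀ (Y : S.LY) (g : EE (d * d)), S.dl g ≠ 0 →
    Summable (fun z : Y.1 => f (S.act z g)) ∧
    |(∑' z : Y.1, f (S.act z g)) - (S.nu g Y)⁻¹ * ∫ x, f x| ≤ C * S.nu g Y

/-! ### Part 5: unfolding -/

/-- **MEC** (from RAL; the measure `dg / dl g` is invariant under left multiplication by `D^*` and changes by scalars trivially). Linear change of
variables (`MeasureTheory.Measure.map_linearMap_addHaar_eq_smul_addHaar`, `lintegral_map`); `|det| = |nor z|`, `dl (z g) = |nor z| dl g`. For scalars: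
`|c|^N` in both. -/
def MEC_stmt : Prop := ∀ (d : ℕ) (D : Type) [DivisionRing D] [Algebra ℚ D] [FiniteDimensional ℚ D], 0 < d →
  ∀ (S : SO d D) (F : EE (d * d) → ℝ≥0∞), Measurable F →
  (∀ z : D, z ≠ 0 → ∫⁻ g, F (S.act z g) * ENNReal.ofReal ((S.dl g)⁻¹) = ∫⁻ g, F g * ENNReal.ofReal ((S.dl g)⁻¹)) ∧
  ∀ c : ℝ, c ≠ 0 → ∫⁻ g, F (c • g) * ENNReal.ofReal ((S.dl g)⁻¹) = ∫⁻ g, F g * ENNReal.ofReal ((S.dl g)⁻¹)

/-- **GSU** (from BAS). `‖A n‖ ≥ c ‖n‖` for some `c > 0`, so the Gaussian sum over the lattice `Y g` converges; it is positive (`O ⊆ Y`). -/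
def GSU_stmt : Prop := ∀ (d : ℕ) (D : Type) [DivisionRing D] [Algebra ℚ D] [FiniteDimensional ℚ D], 0 < d →
  ∀ (S : SO d D) (Y : S.LY) (g : EE (d * d)), S.dl g ≠ 0 →
  (∑' z : {z : Y.1 // z ≠ 0}, ENNReal.ofReal (Real.exp (-‖S.act z.1 g‖ ^ 2))) ≠ 0 ∧
  (∑' z : {z : Y.1 // z ≠ 0}, ENNReal.ofReal (Real.exp (-‖S.act z.1 g‖ ^ 2))) ≠ ⊤

/-- **QSC** (from RAL, IDX, MEC, GSU; unfolding). `f₁ g = exp (-‖g‖²)`, `Θ(g, Y) = ∑_{z ∈ Y, z ≠ 0} f₁ (z g)`, `w g Y = f₁ g / Θ(g, Y)`. The map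
`(Y, z) ↦ (Y', z⁻¹)`, `Y' = Y z⁻¹` (IDX (1)) is an involution of the set of the pairs `Y ∈ LY`, `0 ≠ z ∈ Y` (`z⁻¹ ∈ Y'` as `1 ∈ Y`). `nu g Y = nu (z g) Y'`:
`dl (z g) / ix Y' = |nor z| dl g / (ix Y |nor z|)`. `Θ(g, Y) = Θ(z g, Y')` (`u ∈ Y' ↔ u z ∈ Y`). (1): the left side is the sum over the pairs of
`∫ w g Y h(nu g Y) φ (z g) dg / dl g`; substitute `g' = z g` (MEC): `∫ f₁ (z⁻¹ g') / Θ(g', Y') h(nu g' Y') φ (g') dg' / dl g'`; rename the pairs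
`(Y', z⁻¹)` as `(Y, z)`: `∑_Y ∫ h(nu g Y) φ(g) ∑_{z ∈ Y, z ≠ 0} f₁ (z g) / Θ(g, Y) dg / dl g`, and the inner sum is `1` (GSU; where `dl g = 0` the factor
`ofReal (dl g)⁻¹` is `0`). Tonelli (`lintegral_tsum`, countable index sets). (2): let `t = c ^ (1/N)`, `w' g Y = w (t g) Y`; as in (1) (with
`Θ(t z g, Y)`) one gets `∑_Y ∫ w h(nu) = ∑_Y ∫ w' h(nu)`: insert `1 = ∑_z f₁ (t z g) / Θ(t g, Y)` in the left side and unfold; then substitute `t g`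
(MEC), `nu (t g) Y = c nu g Y`. -/
def QSC_stmt : Prop := ∀ (d : ℕ) (D : Type) [DivisionRing D] [Algebra ℚ D] [FiniteDimensional ℚ D], 0 < d →
  ∀ (S : SO d D), ∃ w : EE (d * d) → S.LY → ℝ≥0∞, (∀ Y, Measurable fun g => w g Y) ∧
  (∀ (h : ℝ → ℝ≥0∞) (φ : EE (d * d) → ℝ≥0∞), Measurable h → Measurable φ →
    ∑' Y : S.LY, ∫⁻ g, w g Y * h (S.nu g Y) * (∑' z : {z : Y.1 // z ≠ 0}, φ (S.act z.1 g)) *
        ENNReal.ofReal ((S.dl g)⁻¹) =
      ∑' Y : S.LY, ∫⁻ g, h (S.nu g Y) * φ g * ENNReal.ofReal ((S.dl g)⁻¹)) ∧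
  ∀ (h : ℝ → ℝ≥0∞) (c : ℝ), Measurable h → 0 < c →
    ∑' Y : S.LY, ∫⁻ g, w g Y * h (c * S.nu g Y) * ENNReal.ofReal ((S.dl g)⁻¹) =
      ∑' Y : S.LY, ∫⁻ g, w g Y * h (S.nu g Y) * ENNReal.ofReal ((S.dl g)⁻¹)

/-- **PHI** (from RAL; properties of `Φ`). On the compact support of `f` (not empty) `0 < δ₁ ≤ dl ≤ δ₂`; `Φ r ≠ 0` implies `1 / δ₂ ≤ r ≤ 2 / δ₁`;
`Φ ≤ ∫ f / δ₁`. Measurable in `r` (Fubini). `∫_0^∞ Φ(r) dr / r = log 2 ∫ f / dl > 0`, so `Φ` is not almost everywhere `0` on `(0, ∞)`, and so is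
`r ↦ Φ (r ^ d)` (for `r ≤ 0` it is replaced by `0`). -/
def PHI_stmt : Prop := ∀ (d : ℕ) (D : Type) [DivisionRing D] [Algebra ℚ D] [FiniteDimensional ℚ D], 0 < d →
  ∀ (S : SO d D) (f : EE (d * d) → ℝ), S.Test f → Measurable (S.PhiF f) ∧ (∀ r, 0 ≤ S.PhiF f r) ∧
    (∀ r, r ≤ 0 → S.PhiF f r = 0) ∧ Wt (fun r => if 0 < r then S.PhiF f (r ^ d) else 0)

/-- **BMP** (from RAL; test functions exist). A smooth bump function with support in a small ball around `ev 1`, where `dl ≠ 0`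
(`dl` is continuous, `dl (ev 1) = 1`). -/
def BMP_stmt : Prop := ∀ (d : ℕ) (D : Type) [DivisionRing D] [Algebra ℚ D] [FiniteDimensional ℚ D], 0 < d →
  ∀ (S : SO d D), ∃ f : EE (d * d) → ℝ, S.Test f

/-- **DSA** (from RAL, DSO, QSC, CTY, PHI). Let `h_T ν = 1` if `1 ≤ T ν ≤ 2`, else `0`; `I = ∫ f`; `f 0 = 0` (`dl 0 = 0`), so the sum over `z ∈ Y` is the sum over `z ≠ 0`.
`S(T) = ∑_Y Φ (T / ix Y) = ∑_Y ∫ h_T(nu) f dg / dl g`, by QSC (1) equal to `∑_Y ∫ w h_T(nu) (∑_z f (z g)) dg / dl g`, which is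
`∑_Y ∫ w h_T(nu) (nu⁻¹ I + O(nu)) dg / dl g` by DSO. Let `κ = ∑_Y ∫ w h_1(nu) dg/dl g`, `= ∑_Y ∫ w h_T(nu) dg/dl g` for all `T > 0` by QSC (2). `S(T)` is finite
(CTY: finitely many terms). `κ < ∞`: for `T` large `nu⁻¹ I - C nu ≥ nu⁻¹ I / 2 ≥ T I / 4` on the shell, so `κ T I / 4 ≤ S(T) < ∞`. The main term is
`I ∑_Y ∫ w h_T(nu) nu⁻¹ = I T κ₂` with `κ₂ = ∑_Y ∫ w h_1(nu) nu⁻¹ ≤ κ` (QSC (2) for `ν ↦ h_1(ν) ν⁻¹`), the error is `≤ C (2/T) κ`. -/
def DSA_stmt : Prop := ∀ (d : ℕ) (D : Type) [DivisionRing D] [Algebra ℚ D] [FiniteDimensional ℚ D], 0 < d →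
  Algebra.IsCentral ℚ D → ∀ (S : SO d D),
  (∀ (q : ℕ) [Fact q.Prime], Nonempty (D →+* Matrix (Fin d) (Fin d) ℚ_[q])) →
  ∀ f : EE (d * d) → ℝ, S.Test f → ∃ C K : ℝ, ∀ T : ℝ, 1 ≤ T →
    Summable (fun Y : S.LY => S.PhiF f (T / S.ix Y)) ∧
    |(∑' Y : S.LY, S.PhiF f (T / S.ix Y)) - C * T| ≤ K

/-- **BRZ** (from CTY, MEL, PHI, BMP, DSA). `T = U ^ d`; by CTY (with `F m = ofReal (Φ (T / m))`) `∑_Y Φ (T / ix Y) = ∑_w cc d w Φ ((U / w) ^ d)`. -/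
def BRZ_stmt : Prop := ∀ (d : ℕ) (D : Type) [DivisionRing D] [Algebra ℚ D] [FiniteDimensional ℚ D], 2 ≤ d →
  Algebra.IsCentral ℚ D → SO d D → (∀ (q : ℕ) [Fact q.Prime], Nonempty (D →+* Matrix (Fin d) (Fin d) ℚ_[q])) →
  False

/-! ### Part 6: the embedding theorem -/

/-- **NOD** (from CSA, WED, CHM, BLK, ORA, ORE, TRC, SPL, BRZ; compare `Pool/Agent/helper30/SHL/NOC.lean`). WED: `e : AL f p ≃ M_k(D)`, `dim D = d²`, `n = d k`.
`ψ q` from CHM for all `q` (the rational number `t` is the same for all `q`), `τ x = t`, ORA (for `R = M_k(D)` or `AL f p`), BLK and TRC for the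
hypotheses of ORE, so there is `S : SO d D`; the representations of BLK and BRZ give `d = 1` (`d ≥ 1`), `k = n`; SPL for the inclusion of `AL f p` in the matrices. -/
def NOD_stmt : Prop := ∀ (n : ℕ), 3 ≤ n → ∀ (Λ : Type) [Group Λ], Group.FG Λ → QuotLe Λ (SLZ n) →
  ∀ (f : Fam n Λ), (∀ q, (Set.range (f q)).Infinite) → ∀ p : Nat.Primes,
  ∃ x ∈ Submodule.span ℚ (Set.range fun l => qM (f p l)), x.rank = 1

/-- **EMB** (Spitler's theorem; assembly from NOD, `LRHO_stmt`, `LEMB_stmt`). -/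
def EMB_stmt : Prop := ∀ (n : ℕ), 3 ≤ n → ∀ (Λ : Type) [Group Λ], Group.FG Λ → QuotLe Λ (SLZ n) →
  QuotLe (SLZ n) Λ → RF Λ → ∃ R : Λ →* SLZ n, Function.Injective R ∧
    ∀ (m : ℕ), m ≠ 0 → ∀ γ : SLZ n, ∃ l : Λ,
      MC m (R l : Matrix (Fin n) (Fin n) ℤ) (γ : Matrix (Fin n) (Fin n) ℤ)

end Pool.Agent.BRZ
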