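import Pool.Agent.helper73.SHL.AsmS
import Pool.Agent.helper13.BRZ.MEL
import Pool.Agent.helper14.BRZ.LM
import Pool.Agent.helper2.BRZ.BMP
import Pool.Agent.helper20.BRZ.POI
import Pool.Agent.helper25.BRZ.LQ
import Pool.Agent.helper3.BRZ.DSO
import Pool.Agent.helper37.BRZ.LSC
import Pool.Agent.helper39.BRZ.CTY
import Pool.Agent.helper40.BRZ.MEC
import Pool.Agent.helper41.BRZ.CNT
import Pool.Agent.helper43.BRZ.MOR
import Pool.Agent.helper44.BRZ.MEA
import Pool.Agent.helper51.BRZ.QSC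
import Pool.Agent.helper56.BRZ.IDX
import Pool.Agent.helper6.BRZ.RAL
import Pool.Agent.helper74.BRZ.BRZ
import Pool.Agent.helper75.BRZ.PSB
import Pool.Agent.helper78.BRZ.LSB
import Pool.Agent.helper79.BRZ.NOR
import Pool.Agent.helper8.BRZ.PHI
import Pool.Agent.helper84.BRZ.NOD
import Pool.Agent.helper87.BRZ.GSU
import Pool.Agent.helper92.BRZ.POA
import Pool.Agent.helper94.BRZ.ORE
import Pool.Agent.helper96.BRZ.DSA
import Pool.Agent.helper99.BRZ.BAS
import Pool.Agent.helper99.BRZ.DUA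

/-!
Project brz: assembly. `tEMB`: every finitely generated residually finite group with the finite quotients of
`SL(n, ℤ)`, `n ≥ 3`, embeds in `SL(n, ℤ)` as a dense subgroup.
-/

set_option autoImplicit false

namespace Pool.Agent.BRZ

open Pool.Agent.PR Pool.Agent.SHL

theorem tRAL : RAL_stmt := RAL NOR
theorem tIDX : IDX_stmt := IDX NOR
theorem tPSB : PSB_stmt := PSB (POI POA) LSB
theorem tBAS : BAS_stmt := BAS tRAL
theorem tDUA : DUA_stmt := DUA tRAL tIDX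
theorem tDSO : DSO_stmt := DSO tRAL tPSB tBAS tDUA
theorem tMEC : MEC_stmt := MEC tRAL
theorem tGSU : GSU_stmt := GSU tBAS
theorem tQSC : QSC_stmt := QSC tRAL tIDX tMEC tGSU
theorem tPHI : PHI_stmt := PHI tRAL
theorem tBMP : BMP_stmt := BMP tRAL
theorem tCTY : CTY_stmt := CTY CNT MOR (LM (LQ tTRC))
theorem tDSA : DSA_stmt := DSA tRAL tIDX tDSO tQSC tCTY tPHI
theorem tMEL : MEL_stmt := MEL LSC MEA
theorem tBRZ : BRZ_stmt := Pool.Agent.BRZ.BRZ tCTY tMEL tPHI tBMP tDSA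
theorem tNOD : NOD_stmt := NOD tCSA WED tCHM BLK ORA ORE tTRC SPL tBRZ

theorem tEMB : EMB_stmt := by
  intro n hn Λ _ hFG h1 h2 hRF
  let f : Fam n Λ := fun q => (tLRHO n hn Λ hFG h2 (q : ℕ)).choose
  have hf : ∀ q, (Set.range (f q)).Infinite := fun q => (tLRHO n hn Λ hFG h2 (q : ℕ)).choose_spec
  obtain ⟨x, hx, hr⟩ := tNOD n hn Λ hFG h1 f hf ⟨2, Nat.prime_two⟩
  obtain ⟨R, -, -, hR, -, -, -, hd⟩ := tLEMB n hn Λ hFG h1 hRF f hf ⟨2, Nat.prime_two⟩ x hx hr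
  exact ⟨R, hR, hd⟩

end Pool.Agent.BRZ
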